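import Pool.Agent.Work.MP_46fa68_28.Joint2

/-!
# MP_46fa68_co, S1 (c): the cell bound from a joint certificate of class functions

`A` a `t`-intersecting family in `S_(n+1)`, `m = n + 1 - t`, `X` the number of members through the cell `(i, j)`,
`Y` the number of the others.  Class functions `al`, `ph` of `S_n` and `f`, `g` of `S_(n+1)` (eigenvalue functions on
the shapes, harmonic between the level `m` and their level) with level `m` values `Val p q` (for instance
`p - q [one row]`), `0 < g`, `al C ≥ ∑ w (f - ph C)^2 / g`.  Then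
`0 ≤ m! (W1 X + W2 Y) - s11 X^2 - 2 s12 X Y - s22 Y^2`.
-/

set_option autoImplicit false

open Finset Equiv

namespace Pool.JM

/-- harmonic between the levels `m` and `n` -/
def Harm (M m n : ℕ) (a : Finset ℕ → ℝ) : Prop :=
  ∀ k, m ≤ k → k < n → ∀ C ∈ Lv M k, a C = ∑ x ∈ ad C, w C x * a (mv C x)

/-- level `m` values: at most `p - q / m!` at the identity and `- q / m!` elsewhere -/
def Val (N M m : ℕ) (a : Finset ℕ → ℝ) (p q : ℝ) : Prop :=
  ∀ σ : Perm (Fin N), Sn m σ → G N M a m σ 1 ≤ (if σ = 1 then p else 0) - q / m.factorial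

theorem Val_of_const {N M : ℕ} (hM : N < M) {m : ℕ} (hm : m ≤ N) (a : Finset ℕ → ℝ) (p q : ℝ)
    (h : ∀ C ∈ Lv M m, a C = p - if C = Rw M m then q else 0) : Val N M m a p q :=
  fun _ hσ => (G_const hM hm a p q h hσ).le

theorem conj_small' {n m : ℕ} (hm : m ≤ n) {σ : Perm (Fin (n + 1))} (hσ : Sn n σ)
    (h : n + 1 - m ≤ (univ.filter fun i => σ i = i).card) :
    ∃ τ : Perm (Fin (n + 1)), Sn n τ ∧ Sn m (τ * σ * τ⁻¹) := by
  obtain ⟨τ₀, h₀⟩ := conj_small h
  set l : Fin (n + 1) := Fin.last n with hl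
  set ρ := τ₀ * σ * τ₀⁻¹ with hρ
  have hσl : σ l = l := hσ l (by simp [hl])
  have hρ0 : ρ (τ₀ l) = τ₀ l := by
    rw [hρ, Perm.mul_apply, Perm.mul_apply, show τ₀⁻¹ (τ₀ l) = l from τ₀.symm_apply_apply l, hσl]
  have hρl : ρ l = l := h₀ l (by simpa [hl] using hm)
  refine ⟨swap (τ₀ l) l * τ₀, ?_, ?_⟩
  · intro k hk
    have hk' : k = l := by
      apply Fin.ext
      have := k.2
      simp only [hl, Fin.val_last]
      omega
    rw [hk', Perm.mul_apply, swap_apply_left]
  · intro k hk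
    have e : (swap (τ₀ l) l * τ₀ * σ * (swap (τ₀ l) l * τ₀)⁻¹) k =
        swap (τ₀ l) l (ρ (swap (τ₀ l) l k)) := by
      rw [hρ, mul_inv_rev, swap_inv]
      simp only [Perm.mul_apply]
    rw [e]
    have hf : ρ (swap (τ₀ l) l k) = swap (τ₀ l) l k := by
      by_cases h1 : k = τ₀ l
      · rw [h1, swap_apply_left, hρl]
      · by_cases h2 : k = l
        · rw [h2, swap_apply_right, hρ0]
        · rw [swap_apply_of_ne_of_ne h1 h2, h₀ k hk]
    rw [hf, swap_apply_self]

theorem fix_count {N : ℕ} (σ τ : Perm (Fin N)) :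
    (univ.filter fun i => (σ * τ⁻¹) i = i).card = (univ.filter fun i => σ i = τ i).card := by
  refine (Finset.card_bij (fun i _ => τ i) ?_ ?_ ?_).symm
  · intro i hi
    have hi' : σ i = τ i := (mem_filter.1 hi).2
    refine mem_filter.2 ⟨mem_univ _, ?_⟩
    rw [Perm.mul_apply, show τ⁻¹ (τ i) = i from τ.symm_apply_apply i, hi']
  · intro a _ b _ hab
    exact τ.injective hab
  · intro b hb
    have hb' : (σ * τ⁻¹) b = b := (mem_filter.1 hb).2
    refine ⟨τ⁻¹ b, mem_filter.2 ⟨mem_univ _, ?_⟩, τ.apply_symm_apply b⟩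
    rw [Perm.mul_apply] at hb'
    rw [hb']
    exact (τ.apply_symm_apply b).symm

theorem vec_quad {N : ℕ} (A B : Finset (Perm (Fin N))) (T : Mat N) :
    vec A ⬝ᵥ (T.mulVec (vec B)) = ∑ σ ∈ A, ∑ τ ∈ B, T σ τ := by
  simp only [dotProduct, Matrix.mulVec, vec, ite_mul, one_mul, zero_mul, mul_ite, mul_one,
    mul_zero, Finset.sum_ite_mem, univ_inter]

theorem pair_le {n m M k : ℕ} (hM : n + 1 < M) (hm : m ≤ n) (hk : k = n ∨ k = n + 1)
    (a : Finset ℕ → ℝ) (p q : ℝ) (h1 : Harm M m k a) (h2 : Val (n + 1) M m a p q)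
    {σ τ : Perm (Fin (n + 1))} (hst : k = n → Sn n (σ * τ⁻¹))
    (hA : n + 1 - m ≤ (univ.filter fun i => σ i = τ i).card) :
    G (n + 1) M a k σ τ ≤ (if σ = τ then p else 0) - q / m.factorial := by
  have hgal : Inv (G (n + 1) M a k) := G_inv hM a (by omega)
  have e1 : G (n + 1) M a k σ τ = G (n + 1) M a k (σ * τ⁻¹) 1 := by
    have := hgal (σ * τ⁻¹) 1 τ
    rw [one_mul] at this
    rw [← this]
    congr 1
    group
  have hfix : n + 1 - m ≤ (univ.filter fun i => (σ * τ⁻¹) i = i).card := by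
    rwa [fix_count]
  obtain ⟨ρ, hρ1, hρ2⟩ : ∃ ρ : Perm (Fin (n + 1)), Sn k ρ ∧ Sn m (ρ * (σ * τ⁻¹) * ρ⁻¹) := by
    rcases hk with hk | hk
    · rw [hk]
      exact conj_small' hm (hst hk) hfix
    · obtain ⟨ρ, hρ⟩ := conj_small hfix
      refine ⟨ρ, fun i hi => ?_, hρ⟩
      have := i.2
      omega
  rw [e1, G_val' hM (by omega : k ≤ n + 1) (by omega : m ≤ k) a h1 hρ1 hρ2]
  refine (h2 _ hρ2).trans (le_of_eq ?_)
  congr 1
  refine if_congr ?_ rfl rfl
  constructor
  · intro h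
    have e : σ * τ⁻¹ = ρ⁻¹ * (ρ * (σ * τ⁻¹) * ρ⁻¹) * ρ := by group
    rw [h] at e
    have e' : σ * τ⁻¹ = 1 := by rw [e]; group
    exact mul_inv_eq_one.1 e'
  · rintro rfl
    group

theorem sum_pair_le {n m M k : ℕ} (hM : n + 1 < M) (hm : m ≤ n) (hk : k = n ∨ k = n + 1)
    (a : Finset ℕ → ℝ) (p q : ℝ) (h1 : Harm M m k a) (h2 : Val (n + 1) M m a p q)
    (A : Finset (Perm (Fin (n + 1)))) (hst : k = n → ∀ σ ∈ A, Sn n σ)
    (hA : ∀ σ ∈ A, ∀ τ ∈ A, n + 1 - m ≤ (univ.filter fun i => σ i = τ i).card) :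
    vec A ⬝ᵥ ((G (n + 1) M a k).mulVec (vec A)) ≤
      p * A.card - q / m.factorial * (A.card : ℝ) ^ 2 := by
  rw [vec_quad]
  calc ∑ σ ∈ A, ∑ τ ∈ A, G (n + 1) M a k σ τ ≤
      ∑ σ ∈ A, ∑ τ ∈ A, ((if σ = τ then p else 0) - q / m.factorial) := by
        refine Finset.sum_le_sum fun σ hσ => Finset.sum_le_sum fun τ hτ => ?_
        exact pair_le hM hm hk a p q h1 h2
          (fun h => Sn_mul (hst h σ hσ) (Sn_inv (hst h τ hτ))) (hA σ hσ τ hτ)
    _ = ∑ σ ∈ A, (p - A.card * (q / m.factorial)) := by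
        refine Finset.sum_congr rfl fun σ hσ => ?_
        rw [Finset.sum_sub_distrib, Finset.sum_ite_eq, if_pos hσ, Finset.sum_const, nsmul_eq_mul]
    _ = _ := by
        rw [Finset.sum_const, nsmul_eq_mul]
        ring

theorem Sn_last {n : ℕ} {σ : Perm (Fin (n + 1))} : Sn n σ ↔ σ (Fin.last n) = Fin.last n := by
  constructor
  · intro h
    exact h _ (by simp)
  · intro h k hk
    have hk' : k = Fin.last n := by
      apply Fin.ext
      have := k.2
      simp only [Fin.val_last]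
      omega
    rw [hk', h]

/-- the bound for the cell `(last, last)` -/
theorem joint_last {n m M : ℕ} (hM : n + 1 < M) (hm : m ≤ n) (al ph f g : Finset ℕ → ℝ)
    (W1 s11 f0 s12 W2 s22 : ℝ)
    (ha1 : Harm M m n al) (ha2 : Val (n + 1) M m al W1 s11)
    (hf1 : Harm M m (n + 1) f) (hf2 : Val (n + 1) M m f f0 s12)
    (hg1 : Harm M m (n + 1) g) (hg2 : Val (n + 1) M m g W2 s22)
    (hg : ∀ B ∈ Lv M (n + 1), 0 < g B)
    (hal : ∀ C ∈ Lv M n,
      ∑ x ∈ ad C, w C x * ((f (mv C x) - ph C) ^ 2 / g (mv C x)) ≤ al C)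
    (A : Finset (Perm (Fin (n + 1))))
    (hA : ∀ σ ∈ A, ∀ τ ∈ A, n + 1 - m ≤ (univ.filter fun i => σ i = τ i).card) :
    let X : ℝ := ((A.filter fun σ => σ (Fin.last n) = Fin.last n).card : ℝ)
    let Y : ℝ := ((A.filter fun σ => σ (Fin.last n) ≠ Fin.last n).card : ℝ)
    0 ≤ (W1 * X + W2 * Y) - (s11 * X ^ 2 + 2 * s12 * X * Y + s22 * Y ^ 2) / m.factorial := by
  classical
  intro X Y
  set B := A.filter fun σ => σ (Fin.last n) = Fin.last n with hB
  set C := A.filter fun σ => σ (Fin.last n) ≠ Fin.last n with hC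
  have hq := quad_joint (N := n + 1) hM rfl al ph f g hg hal (vec B) (vec C)
    (fun σ hσ => by
      have h : σ ∉ B := fun h => hσ (Sn_last.2 (mem_filter.1 h).2)
      exact if_neg h)
    (fun σ hσ => by
      have h : σ ∉ C := fun h => (mem_filter.1 h).2 (Sn_last.1 hσ)
      exact if_neg h)
  have h1 := sum_pair_le hM hm (Or.inl rfl) al W1 s11 ha1 ha2 B
    (fun _ σ hσ => Sn_last.2 (mem_filter.1 hσ).2)
    (fun σ hσ τ hτ => hA σ (mem_filter.1 hσ).1 τ (mem_filter.1 hτ).1)
  have h3 := sum_pair_le hM hm (Or.inr rfl) g W2 s22 hg1 hg2 C (fun h => by omega)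
    (fun σ hσ τ hτ => hA σ (mem_filter.1 hσ).1 τ (mem_filter.1 hτ).1)
  have h2 : vec B ⬝ᵥ ((G (n + 1) M f (n + 1)).mulVec (vec C)) ≤
      - (s12 / m.factorial) * ((B.card : ℝ) * C.card) := by
    rw [vec_quad]
    calc ∑ σ ∈ B, ∑ τ ∈ C, G (n + 1) M f (n + 1) σ τ ≤
        ∑ σ ∈ B, ∑ τ ∈ C, (- (s12 / m.factorial) : ℝ) := by
          refine Finset.sum_le_sum fun σ hσ => Finset.sum_le_sum fun τ hτ => ?_
          have h := pair_le hM hm (Or.inr rfl) f f0 s12 hf1 hf2 (σ := σ) (τ := τ)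
            (fun h => by omega) (hA σ (mem_filter.1 hσ).1 τ (mem_filter.1 hτ).1)
          rw [if_neg] at h
          · linarith
          · rintro rfl
            exact (mem_filter.1 hτ).2 (mem_filter.1 hσ).2
      _ = _ := by
          rw [Finset.sum_const, Finset.sum_const, nsmul_eq_mul, nsmul_eq_mul]
          ring
  have hf : (m.factorial : ℝ) ≠ 0 := by exact_mod_cast m.factorial_ne_zero
  have e : (W1 * X + W2 * Y) - (s11 * X ^ 2 + 2 * s12 * X * Y + s22 * Y ^ 2) / m.factorial =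
      (W1 * B.card - s11 / m.factorial * (B.card : ℝ) ^ 2) +
      2 * (- (s12 / m.factorial) * ((B.card : ℝ) * C.card)) +
      (W2 * C.card - s22 / m.factorial * (C.card : ℝ) ^ 2) := by
    simp only [X, Y]
    field_simp
    ring
  rw [e]
  linarith

/-- **The cell bound from a joint certificate.**  `X` members of the `t`-intersecting family `A` contain the cell
`(i, j)`, `Y` members do not. -/
theorem joint_cell {n m M : ℕ} (hM : n + 1 < M) (hm : m ≤ n) (al ph f g : Finset ℕ → ℝ)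
    (W1 s11 f0 s12 W2 s22 : ℝ)
    (ha1 : Harm M m n al) (ha2 : Val (n + 1) M m al W1 s11)
    (hf1 : Harm M m (n + 1) f) (hf2 : Val (n + 1) M m f f0 s12)
    (hg1 : Harm M m (n + 1) g) (hg2 : Val (n + 1) M m g W2 s22)
    (hg : ∀ B ∈ Lv M (n + 1), 0 < g B)
    (hal : ∀ C ∈ Lv M n,
      ∑ x ∈ ad C, w C x * ((f (mv C x) - ph C) ^ 2 / g (mv C x)) ≤ al C)
    (A : Finset (Perm (Fin (n + 1))))
    (hA : ∀ σ ∈ A, ∀ τ ∈ A, n + 1 - m ≤ (univ.filter fun i => σ i = τ i).card)
    (i j : Fin (n + 1)) :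
    let X : ℝ := ((A.filter fun σ => σ i = j).card : ℝ)
    let Y : ℝ := ((A.filter fun σ => σ i ≠ j).card : ℝ)
    0 ≤ (W1 * X + W2 * Y) - (s11 * X ^ 2 + 2 * s12 * X * Y + s22 * Y ^ 2) / m.factorial := by
  classical
  intro X Y
  set l : Fin (n + 1) := Fin.last n with hl
  set φ : Perm (Fin (n + 1)) → Perm (Fin (n + 1)) := fun σ => swap j l * σ * swap i l with hφ
  have hinj : Function.Injective φ := fun a b hab => by
    have h1 : swap j l * a * swap i l = swap j l * b * swap i l := hab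
    exact mul_left_cancel (mul_right_cancel h1)
  have hag : ∀ σ τ : Perm (Fin (n + 1)),
      (univ.filter fun k => φ σ k = φ τ k).card = (univ.filter fun k => σ k = τ k).card := by
    intro σ τ
    refine Finset.card_bij (fun k _ => swap i l k) ?_ ?_ ?_
    · intro k hk
      have hk' : φ σ k = φ τ k := (mem_filter.1 hk).2
      refine mem_filter.2 ⟨mem_univ _, ?_⟩
      rw [hφ] at hk'
      simp only [Perm.mul_apply] at hk'
      exact (swap j l).injective hk'
    · intro a _ b _ hab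
      exact (swap i l).injective hab
    · intro b hb
      have hb' : σ b = τ b := (mem_filter.1 hb).2
      refine ⟨swap i l b, mem_filter.2 ⟨mem_univ _, ?_⟩, swap_apply_self _ _ _⟩
      rw [hφ]
      simp only [Perm.mul_apply, swap_apply_self, hb']
  have hSn : ∀ σ : Perm (Fin (n + 1)), φ σ l = l ↔ σ i = j := by
    intro σ
    have e : φ σ l = swap j l (σ i) := by
      rw [hφ]
      simp only [Perm.mul_apply, swap_apply_right]
    constructor
    · intro h1
      rw [e] at h1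
      have h2 := congrArg (swap j l) h1
      rwa [swap_apply_self, swap_apply_right] at h2
    · intro h
      rw [e, h, swap_apply_left]
  have hmain := joint_last hM hm al ph f g W1 s11 f0 s12 W2 s22 ha1 ha2 hf1 hf2 hg1 hg2 hg hal
    (A.image φ) (by
      intro σ hσ τ hτ
      obtain ⟨a, ha, rfl⟩ := mem_image.1 hσ
      obtain ⟨b, hb, rfl⟩ := mem_image.1 hτ
      rw [hag]
      exact hA a ha b hb)
  have hX : ((A.image φ).filter fun σ => σ l = l).card = (A.filter fun σ => σ i = j).card := by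
    rw [filter_image, card_image_of_injective _ hinj]
    congr 1
    refine filter_congr fun σ _ => hSn σ
  have hY : ((A.image φ).filter fun σ => σ l ≠ l).card = (A.filter fun σ => σ i ≠ j).card := by
    rw [filter_image, card_image_of_injective _ hinj]
    congr 1
    refine filter_congr fun σ _ => not_congr (hSn σ)
  simp only at hmain
  rw [hX, hY] at hmain
  exact hmain

end Pool.JM
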