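import Pool.Agent.Work.MP_46fa68_28.Joint

/-!
# MP_46fa68_co: the two-sided (cross) ratio bound

`v` a function on the shapes, harmonic between the levels `m` and `N`, equal to `1` at the one-row shape of level `m`
and `0` at the other shapes of level `m`, `|v| ≤ C` at the level `N`.  If any `σ ∈ A` and `τ ∈ B` agree on at least
`N - m` points then `|A| |B| ≤ (C m!)^2`.
-/

set_option autoImplicit false

open Finset Equiv

namespace Pool.JM

theorem vec_dot {N : ℕ} (A : Finset (Perm (Fin N))) : vec A ⬝ᵥ vec A = A.card := by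
  simp [dotProduct, vec]

theorem cross_pair {N m M : ℕ} (hM : N < M) (hm : m ≤ N)
    (a : Finset ℕ → ℝ) (p q : ℝ) (h1 : Harm M m N a)
    (h2 : ∀ C ∈ Lv M m, a C = p - if C = Rw M m then q else 0)
    {σ τ : Perm (Fin N)}
    (hA : N - m ≤ (univ.filter fun i => σ i = τ i).card) :
    G N M a N σ τ = (if σ = τ then p else 0) - q / m.factorial := by
  have hgal : Inv (G N M a N) := G_inv hM a le_rfl
  have e1 : G N M a N σ τ = G N M a N (σ * τ⁻¹) 1 := by
    have := hgal (σ * τ⁻¹) 1 τ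
    rw [one_mul] at this
    rw [← this]
    congr 1
    group
  have hfix : N - m ≤ (univ.filter fun i => (σ * τ⁻¹) i = i).card := by
    rwa [fix_count]
  obtain ⟨ρ, hρ⟩ := conj_small hfix
  rw [e1, G_val hM hm a h1 hρ, G_const hM hm a p q h2 hρ]
  congr 1
  refine if_congr ?_ rfl rfl
  constructor
  · intro h
    have e : σ * τ⁻¹ = ρ⁻¹ * (ρ * (σ * τ⁻¹) * ρ⁻¹) * ρ := by group
    rw [h] at e
    have e' : σ * τ⁻¹ = 1 := by rw [e]; group
    exact mul_inv_eq_one.1 e'
  · rintro rfl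
    group

/-- **The two-sided ratio bound.** -/
theorem cross_bound {N M m : ℕ} (hM : N < M) (hm : m ≤ N) (v : Finset ℕ → ℝ) (c : ℝ)
    (h1 : Harm M m N v) (h2 : ∀ C ∈ Lv M m, v C = if C = Rw M m then 1 else 0)
    (h3 : ∀ B ∈ Lv M N, |v B| ≤ c) (A B : Finset (Perm (Fin N)))
    (hAB : ∀ σ ∈ A, ∀ τ ∈ B, N - m ≤ (univ.filter fun i => σ i = τ i).card) :
    (A.card : ℝ) * B.card ≤ (c * m.factorial) ^ 2 := by
  classical
  have hf : (0 : ℝ) < m.factorial := by exact_mod_cast m.factorial_pos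
  rcases Nat.eq_zero_or_pos A.card with hA0 | hA0
  · rw [hA0, Nat.cast_zero, zero_mul]
    positivity
  rcases Nat.eq_zero_or_pos B.card with hB0 | hB0
  · rw [hB0, Nat.cast_zero, mul_zero]
    positivity
  have ha : (0 : ℝ) < A.card := by exact_mod_cast hA0
  have hb : (0 : ℝ) < B.card := by exact_mod_cast hB0
  set S : ℝ := vec A ⬝ᵥ (G N M v N).mulVec (vec B) with hS
  have hS1 : S = A.card * B.card / m.factorial := by
    rw [hS, vec_quad]
    have e : ∀ σ ∈ A, ∀ τ ∈ B, G N M v N σ τ = 1 / m.factorial := by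
      intro σ hσ τ hτ
      rw [cross_pair hM hm v 0 (-1) h1 (fun C hC => by
        rw [h2 C hC]
        split_ifs <;> norm_num) (hAB σ hσ τ hτ)]
      split_ifs <;> ring
    rw [Finset.sum_congr rfl fun σ hσ => Finset.sum_congr rfl fun τ hτ => e σ hσ τ hτ,
      Finset.sum_const, Finset.sum_const, nsmul_eq_mul, nsmul_eq_mul]
    ring
  have hS2 : S = ∑ D ∈ Lv M N, v D * ((P N M N D).mulVec (vec A) ⬝ᵥ (P N M N D).mulVec (vec B)) :=
    quad_G' hM le_rfl v (vec A) (vec B)
  have hnorm : ∀ F : Finset (Perm (Fin N)), ∑ D ∈ Lv M N,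
      (P N M N D).mulVec (vec F) ⬝ᵥ (P N M N D).mulVec (vec F) = F.card := by
    intro F
    rw [Finset.sum_congr rfl fun D _ => (quad_P' hM le_rfl D (vec F) (vec F)).symm,
      ← dotProduct_sum, sum_P_mulVec hM le_rfl, vec_dot]
  have key : ∀ x y : ℝ, 0 ≤ x → 0 ≤ y → 2 * (x * y) * S ≤ c * (x ^ 2 * A.card + y ^ 2 * B.card) := by
    intro x y hx hy
    rw [← hnorm A, ← hnorm B, hS2, Finset.mul_sum, Finset.mul_sum, Finset.mul_sum,
      ← Finset.sum_add_distrib, Finset.mul_sum]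
    refine Finset.sum_le_sum fun D hD => ?_
    simp only [dotProduct]
    rw [Finset.mul_sum, Finset.mul_sum, Finset.mul_sum, Finset.mul_sum, ← Finset.sum_add_distrib,
      Finset.mul_sum]
    refine Finset.sum_le_sum fun σ _ => ?_
    set p := (P N M N D).mulVec (vec A) σ
    set q := (P N M N D).mulVec (vec B) σ
    have hv := abs_le.1 (h3 D hD)
    have h5 : 0 ≤ (c - v D) * (x * p + y * q) ^ 2 := mul_nonneg (by linarith) (sq_nonneg _)
    have h6 : 0 ≤ (c + v D) * (x * p - y * q) ^ 2 := mul_nonneg (by linarith) (sq_nonneg _)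
    nlinarith
  have hk := key (Real.sqrt B.card) (Real.sqrt A.card) (Real.sqrt_nonneg _) (Real.sqrt_nonneg _)
  rw [Real.sq_sqrt hb.le, Real.sq_sqrt ha.le, hS1] at hk
  set z := Real.sqrt B.card * Real.sqrt A.card with hz
  have hz0 : 0 < z := mul_pos (Real.sqrt_pos.2 hb) (Real.sqrt_pos.2 ha)
  have hz2 : z ^ 2 = A.card * B.card := by
    rw [hz, mul_pow, Real.sq_sqrt hb.le, Real.sq_sqrt ha.le, mul_comm]
  have h7 : z * (z ^ 2) ≤ (c * m.factorial) * z ^ 2 := by
    have e1 : 2 * z * (A.card * B.card / m.factorial) * m.factorial = 2 * (z * z ^ 2) := by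
      rw [hz2]
      field_simp
    have e2 := mul_le_mul_of_nonneg_right hk hf.le
    rw [e1, mul_comm (B.card : ℝ) (A.card : ℝ), ← hz2] at e2
    linarith
  have h8 : z ≤ c * m.factorial := le_of_mul_le_mul_right h7 (by positivity)
  rw [← hz2]
  exact pow_le_pow_left₀ hz0.le h8 2

end Pool.JM
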