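import Pool.Agent.Work.MP_46fa68_h4.Elem

/-!
# MP_46fa68_co, S1 (c), part 1: centrality of the idempotents at the level `n ≤ N`
-/

set_option autoImplicit false

open Finset Equiv

namespace Pool.JM

variable {N M : ℕ}

theorem P_s_P' (hM : N < M) {n : ℕ} (hn : n ≤ N) {i : ℕ} (h : i + 1 < n) (h' : i + 1 < N)
    {B B' : Finset ℕ} (hB : B ∈ Lv M n) (hB' : B' ∈ Lv M n) (hne : B ≠ B') :
    P N M n B * U (s i h') * P N M n B' = 0 := by
  have hg := good hM n hn
  have hc : B.card = B'.card := (Lv_spec hB).1.trans (Lv_spec hB').1.symm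
  obtain ⟨z, hz⟩ : ∃ z, F B z ≠ F B' z := by
    by_contra hcon
    push Not at hcon
    exact hne (F_inj hc hcon)
  set S : Mat N := U (s i h') with hS
  set Z : Mat N := Zn N M z n with hZ
  have hSZ : S * Z = Z * S := by
    have := s_Zn M z h' (n - (i + 2)) (by omega)
    rwa [show i + 2 + (n - (i + 2)) = n by omega] at this
  have h1 : F (range M) z • (Z * P N M n B') = F B' z • P N M n B' := Zn_P hM z n hn B'
  have h2 : F (range M) z • (P N M n B * Z) = F B z • P N M n B := by
    have := congrArg Matrix.transpose (Zn_P hM z n hn B)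
    rwa [Matrix.transpose_smul, Matrix.transpose_smul, Matrix.transpose_mul, hg.symm,
      Zn_symm M z n hn] at this
  have h3 : F (range M) z • (P N M n B * Z * S * P N M n B') =
      F B z • (P N M n B * S * P N M n B') := by
    rw [mul_assoc (P N M n B * Z), ← Matrix.smul_mul, h2, Matrix.smul_mul, mul_assoc]
  have h4 : F (range M) z • (P N M n B * Z * S * P N M n B') =
      F B' z • (P N M n B * S * P N M n B') := by
    rw [mul_assoc (P N M n B) Z, ← hSZ, ← mul_assoc (P N M n B), mul_assoc (P N M n B * S),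
      ← Matrix.mul_smul, h1, Matrix.mul_smul]
  have h5 : (F B z - F B' z) • (P N M n B * S * P N M n B') = 0 := by
    rw [sub_smul, ← h3, ← h4, sub_self]
  exact (smul_eq_zero.1 h5).resolve_left (sub_ne_zero.2 hz)

theorem P_s' (hM : N < M) {n : ℕ} (hn : n ≤ N) {i : ℕ} (h : i + 1 < n) (h' : i + 1 < N)
    {B : Finset ℕ} (hB : B ∈ Lv M n) :
    U (s i h') * P N M n B = P N M n B * U (s i h') := by
  have hg := good hM n hn
  have h1 : U (s i h') * P N M n B = P N M n B * U (s i h') * P N M n B := by
    calc U (s i h') * P N M n B = (∑ C ∈ Lv M n, P N M n C) * (U (s i h') * P N M n B) := by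
          rw [hg.tot, one_mul]
      _ = _ := by
          rw [Finset.sum_mul, Finset.sum_eq_single B]
          · rw [mul_assoc]
          · intro C hC hne
            rw [← mul_assoc, P_s_P' hM hn h h' hC hB hne]
          · intro hh
            exact absurd hB hh
  have h2 : P N M n B * U (s i h') = P N M n B * U (s i h') * P N M n B := by
    calc P N M n B * U (s i h') = P N M n B * U (s i h') * (∑ C ∈ Lv M n, P N M n C) := by
          rw [hg.tot, mul_one]
      _ = _ := by
          rw [Finset.mul_sum, Finset.sum_eq_single B]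
          · intro C hC hne
            rw [P_s_P' hM hn h h' hB hC (Ne.symm hne)]
          · intro hh
            exact absurd hB hh
  rw [h1, ← h2]

/-- what commutes with the adjacent transpositions of `S_n` commutes with `S_n` -/
theorem central' {T : Mat N} {n : ℕ} (hn : n ≤ N)
    (hT : ∀ (i : ℕ) (h : i + 1 < N), i + 1 < n → U (s i h) * T = T * U (s i h)) :
    ∀ j, j ≤ n → ∀ σ : Perm (Fin N), Sn j σ → U σ * T = T * U σ
  | 0, _, σ, hσ => by
    have : σ = 1 := by
      ext k
      rw [hσ k (Nat.zero_le _)]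
      rfl
    rw [this, U_one, one_mul, mul_one]
  | j + 1, hj, σ, hσ => by
    have key : ∀ d : ℕ, ∀ σ : Perm (Fin N), Sn (j + 1) σ →
        ((σ ⟨j, by omega⟩ : Fin N) : ℕ) + d = j → U σ * T = T * U σ := by
      intro d
      induction d with
      | zero =>
        intro σ hσ hd
        refine central' hn hT j (by omega) σ fun k hk => ?_
        rcases Nat.lt_or_ge j (k : ℕ) with h1 | h1
        · exact hσ k h1
        · have hkj : k = ⟨j, by omega⟩ := Fin.ext (by simp only; omega)
          rw [hkj]
          exact Fin.ext (by simpa using hd)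
      | succ d ih =>
        intro σ hσ hd
        set i : ℕ := ((σ ⟨j, by omega⟩ : Fin N) : ℕ) with hi
        have hiN : i + 1 < N := by omega
        have hs := hT i hiN (by omega)
        have h1 : Sn (j + 1) (s i hiN) := Sn_mono (by omega) (s_Sn i hiN)
        have h2 : Sn (j + 1) (s i hiN * σ) := Sn_mul h1 hσ
        have h3 : (((s i hiN * σ) ⟨j, by omega⟩ : Fin N) : ℕ) + d = j := by
          have e1 : σ ⟨j, by omega⟩ = ⟨i, by omega⟩ := Fin.ext hi.symm
          rw [Perm.mul_apply, e1]
          unfold s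
          rw [swap_apply_left]
          simp only
          omega
        have h4 := ih _ h2 h3
        have h5 : σ = s i hiN * (s i hiN * σ) := by
          rw [← mul_assoc, s_mul, one_mul]
        rw [h5, ← U_mul, mul_assoc, h4, ← mul_assoc, hs, mul_assoc]
    have hle : ((σ ⟨j, by omega⟩ : Fin N) : ℕ) ≤ j := by
      have := Sn_lt hσ (i := ⟨j, by omega⟩) (by simp)
      omega
    exact key (j - ((σ ⟨j, by omega⟩ : Fin N) : ℕ)) σ hσ (by omega)

theorem G_central' (hM : N < M) {n : ℕ} (hn : n ≤ N) (b : Finset ℕ → ℝ) {σ : Perm (Fin N)}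
    (hσ : Sn n σ) : U σ * G N M b n = G N M b n * U σ := by
  refine central' hn (fun i hi hin => ?_) n le_rfl σ hσ
  unfold G
  rw [Finset.mul_sum, Finset.sum_mul]
  refine Finset.sum_congr rfl fun B hB => ?_
  rw [Matrix.mul_smul, Matrix.smul_mul, P_s' hM hn hin hi hB]

/-- `G b` of level `n` is a class function of `S_n` -/
theorem G_class' (hM : N < M) {n : ℕ} (hn : n ≤ N) (b : Finset ℕ → ℝ) (σ : Perm (Fin N))
    {τ : Perm (Fin N)} (hτ : Sn n τ) :
    G N M b n (τ * σ * τ⁻¹) 1 = G N M b n σ 1 := by
  set g := G N M b n with hg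
  have hgal : Inv g := G_inv hM b hn
  have e1 : (U τ⁻¹ * g) (σ * τ⁻¹) 1 = g (τ * σ * τ⁻¹) 1 := by
    rw [U_mul_apply, inv_inv, mul_assoc]
  rw [← e1, G_central' hM hn b (Sn_inv hτ), mul_U_apply, mul_one]
  have := hgal σ 1 τ⁻¹
  rwa [one_mul] at this

/-- values on the permutations with many fixed points, `b` harmonic between the levels `m` and `n` -/
theorem G_val' (hM : N < M) {n : ℕ} (hn : n ≤ N) {m : ℕ} (hm : m ≤ n) (b : Finset ℕ → ℝ)
    (h : ∀ k, m ≤ k → k < n → ∀ C ∈ Lv M k, b C = ∑ x ∈ ad C, w C x * b (mv C x))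
    {σ τ : Perm (Fin N)} (hτn : Sn n τ) (hτ : Sn m (τ * σ * τ⁻¹)) :
    G N M b n σ 1 = G N M b m (τ * σ * τ⁻¹) 1 := by
  rw [← G_class' hM hn b σ hτn]
  have e1 : E m (G N M b n) (τ * σ * τ⁻¹) 1 = G N M b n (τ * σ * τ⁻¹) 1 :=
    E_apply_of (by simpa using hτ)
  have key : ∀ d, m + d ≤ n → E m (G N M b (m + d)) = G N M b m := by
    intro d
    induction d with
    | zero =>
      intro hd
      refine E_of_Al (Al.sum _ _ fun B _ => ?_).1
      exact ((good hM m (by omega)).al B).smul _
    | succ d ih =>
      intro hd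
      rw [← E_E (Nat.le_add_right m d), show m + (d + 1) = m + d + 1 by omega,
        E_G_step b hM (by omega) (h (m + d) (by omega) (by omega))]
      exact ih (by omega)
  have e2 := key (n - m) (by omega)
  rw [show m + (n - m) = n by omega] at e2
  rw [← e1, e2]

/-- values of a class function that is `p` off the one-row shape and `p - q` there at level `m` -/
theorem G_const (hM : N < M) {m : ℕ} (hm : m ≤ N) (b : Finset ℕ → ℝ) (p q : ℝ)
    (h : ∀ C ∈ Lv M m, b C = p - if C = Rw M m then q else 0) {g : Perm (Fin N)} (hg : Sn m g) :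
    G N M b m g 1 = (if g = 1 then p else 0) - q / m.factorial := by
  have hR := Rw_mem (show 0 < M by omega) m
  have e : G N M b m = p • 1 - q • P N M m (Rw M m) := by
    unfold G
    rw [← (good (N := N) hM m hm).tot, Finset.smul_sum]
    have : q • P N M m (Rw M m) = ∑ B ∈ Lv M m, (if B = Rw M m then q else 0) • P N M m B := by
      rw [Finset.sum_eq_single (Rw M m)]
      · rw [if_pos rfl]
      · intro B _ hne
        rw [if_neg hne, zero_smul]
      · intro h'
        exact absurd hR h'
    rw [this, ← Finset.sum_sub_distrib]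
    refine Finset.sum_congr rfl fun B hB => ?_
    rw [h B hB, sub_smul]
  rw [e, Matrix.sub_apply, Matrix.smul_apply, Matrix.smul_apply, P_Rw hM hm hg, smul_eq_mul,
    smul_eq_mul, Matrix.one_apply]
  by_cases h1 : g = 1
  · rw [if_pos h1, if_pos h1]; ring
  · rw [if_neg h1, if_neg h1]; ring

end Pool.JM
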