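import Pool.Agent.Work.MP_46fa68_28.Joint1

/-!
# MP_46fa68_co, S1 (c), part 2: the joint certificate (helper99's form)

`b` supported on `S_n`, `c` supported on the rest of `S_(n+1)`.  Class functions `al`, `ph` of `S_n`, `f`, `g` of
`S_(n+1)` given by their eigenvalues on the shapes, `0 < g`, one-step Plancherel weights `w C x`.  If
`al C ≥ ∑ w (f - ph C)^2 / g` at every shape `C` of size `n`, then
`0 ≤ ⟨b, al b⟩ + 2 ⟨b, f c⟩ + ⟨c, g c⟩`.
-/

set_option autoImplicit false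

open Finset Equiv

namespace Pool.JM

variable {N M : ℕ}

theorem E_P_quad (hM : N < M) {n : ℕ} (hn : n < N) (v v' : Perm (Fin N) → ℝ)
    (hv : ∀ σ, ¬ Sn n σ → v σ = 0) (hv' : ∀ σ, ¬ Sn n σ → v' σ = 0) (T : Mat N) :
    v ⬝ᵥ T.mulVec v' = v ⬝ᵥ (E n T).mulVec v' := by
  simp only [dotProduct, Matrix.mulVec]
  refine Finset.sum_congr rfl fun g _ => ?_
  by_cases hg : Sn n g
  · congr 1
    refine Finset.sum_congr rfl fun h _ => ?_
    by_cases hh : Sn n h
    · rw [E_apply_of (Sn_mul hg (Sn_inv hh))]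
    · rw [hv' h hh, mul_zero, mul_zero]
  · rw [hv g hg, zero_mul, zero_mul]

theorem dot_Bd {n : ℕ} (b c : Perm (Fin N) → ℝ) (hb : ∀ σ, ¬ Sn n σ → b σ = 0)
    (hc : ∀ σ, Sn n σ → c σ = 0) {T : Mat N} (hT : Bd n T) : b ⬝ᵥ T.mulVec c = 0 := by
  simp only [dotProduct, Matrix.mulVec]
  refine Finset.sum_eq_zero fun g _ => ?_
  by_cases hg : Sn n g
  · rw [mul_eq_zero]
    right
    refine Finset.sum_eq_zero fun h _ => ?_
    by_cases hh : Sn n h
    · rw [hc h hh, mul_zero]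
    · rw [hT g h, zero_mul]
      intro h'
      apply hh
      have := Sn_mul (Sn_inv h') hg
      simpa using this
  · rw [hb g hg, zero_mul]

theorem supp_P (hM : N < M) {n : ℕ} (hn : n ≤ N) (C : Finset ℕ) (b : Perm (Fin N) → ℝ)
    (hb : ∀ σ, ¬ Sn n σ → b σ = 0) (σ : Perm (Fin N)) (hσ : ¬ Sn n σ) :
    (P N M n C).mulVec b σ = 0 := by
  simp only [dotProduct, Matrix.mulVec]
  refine Finset.sum_eq_zero fun h _ => ?_
  by_cases hh : Sn n h
  · rw [((good hM n hn).al C).1 σ h, zero_mul]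
    intro h'
    apply hσ
    have := Sn_mul h' hh
    simpa using this
  · rw [hb h hh, mul_zero]

theorem quad_P' (hM : N < M) {n : ℕ} (hn : n ≤ N) (B : Finset ℕ) (v v' : Perm (Fin N) → ℝ) :
    v ⬝ᵥ ((P N M n B).mulVec v') = (P N M n B).mulVec v ⬝ᵥ (P N M n B).mulVec v' := by
  have hg := good (N := N) hM n hn
  nth_rewrite 1 [← hg.idem B]
  rw [← Matrix.mulVec_mulVec, Matrix.dotProduct_mulVec, ← Matrix.mulVec_transpose, hg.symm]

theorem quad_G' (hM : N < M) {n : ℕ} (hn : n ≤ N) (b : Finset ℕ → ℝ) (v v' : Perm (Fin N) → ℝ) :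
    v ⬝ᵥ ((G N M b n).mulVec v') =
      ∑ B ∈ Lv M n, b B * ((P N M n B).mulVec v ⬝ᵥ (P N M n B).mulVec v') := by
  unfold G
  rw [Matrix.sum_mulVec, dotProduct_sum]
  refine Finset.sum_congr rfl fun B _ => ?_
  rw [Matrix.smul_mulVec, dotProduct_smul, smul_eq_mul, quad_P' hM hn]

/-- the Gram matrix of the components of level `n + 1` of the components of level `n` -/
theorem gram (hM : N < M) {n : ℕ} (hn : n < N) (b : Perm (Fin N) → ℝ)
    (hb : ∀ σ, ¬ Sn n σ → b σ = 0) {C C' : Finset ℕ} (hC : C ∈ Lv M n) (B : Finset ℕ) :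
    (P N M (n + 1) B).mulVec ((P N M n C).mulVec b) ⬝ᵥ
      (P N M (n + 1) B).mulVec ((P N M n C').mulVec b) =
    if C = C' then (∑ x ∈ ad C, if mv C x = B then w C x else 0) *
      ((P N M n C).mulVec b ⬝ᵥ (P N M n C).mulVec b) else 0 := by
  have hg := good (N := N) hM n hn.le
  rw [← quad_P' hM (by omega : n + 1 ≤ N), E_P_quad hM hn _ _ (supp_P hM hn.le C b hb)
    (supp_P hM hn.le C' b hb), E_P hn hM, Matrix.sum_mulVec, dotProduct_sum]
  have h1 : ∀ q ∈ (Lv M n).sigma fun C => ad C,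
      (P N M n C).mulVec b ⬝ᵥ (if mv q.1 q.2 = B then w q.1 q.2 • P N M n q.1 else 0).mulVec
        ((P N M n C').mulVec b) =
      if mv q.1 q.2 = B ∧ q.1 = C ∧ q.1 = C' then
        w q.1 q.2 * ((P N M n C).mulVec b ⬝ᵥ (P N M n C).mulVec b) else 0 := by
    intro q hq
    by_cases h : mv q.1 q.2 = B
    · rw [if_pos h, Matrix.smul_mulVec, dotProduct_smul, smul_eq_mul, Matrix.mulVec_mulVec]
      by_cases h2 : q.1 = C'
      · by_cases h3 : q.1 = C
        · rw [if_pos ⟨h, h3, h2⟩, ← h3, ← h2, hg.idem]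
        · rw [if_neg fun h' => h3 h'.2.1, ← h2, hg.idem, Matrix.dotProduct_mulVec,
            ← Matrix.mulVec_transpose, hg.symm, Matrix.mulVec_mulVec, hg.orth _ _ h3,
            Matrix.zero_mulVec, zero_dotProduct, mul_zero]
      · rw [if_neg fun h' => h2 h'.2.2, hg.orth _ _ h2, Matrix.zero_mulVec, dotProduct_zero,
          mul_zero]
    · rw [if_neg h, if_neg fun h' => h h'.1, Matrix.zero_mulVec, dotProduct_zero]
  rw [Finset.sum_congr rfl h1, Finset.sum_sigma]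
  simp only
  by_cases hCC : C = C'
  · rw [if_pos hCC, Finset.sum_eq_single C]
    · rw [Finset.sum_mul]
      refine Finset.sum_congr rfl fun x _ => ?_
      by_cases h : mv C x = B
      · rw [if_pos ⟨h, rfl, hCC⟩, if_pos h]
      · rw [if_neg fun h' => h h'.1, if_neg h, zero_mul]
    · intro D _ hD
      refine Finset.sum_eq_zero fun x _ => ?_
      rw [if_neg fun h' => hD h'.2.1]
    · intro h'
      exact absurd hC h'
  · rw [if_neg hCC]
    refine Finset.sum_eq_zero fun D _ => Finset.sum_eq_zero fun x _ => ?_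
    rw [if_neg fun h' => hCC (h'.2.1.symm.trans h'.2.2)]

theorem sum_P_mulVec (hM : N < M) {n : ℕ} (hn : n ≤ N) (v : Perm (Fin N) → ℝ) :
    ∑ B ∈ Lv M n, (P N M n B).mulVec v = v := by
  rw [← Matrix.sum_mulVec, (good (N := N) hM n hn).tot, Matrix.one_mulVec]

/-- **The joint certificate.** -/
theorem quad_joint (hM : N < M) {n : ℕ} (hn : n + 1 = N) (al ph f g : Finset ℕ → ℝ)
    (hg : ∀ B ∈ Lv M (n + 1), 0 < g B)
    (hal : ∀ C ∈ Lv M n,
      ∑ x ∈ ad C, w C x * ((f (mv C x) - ph C) ^ 2 / g (mv C x)) ≤ al C)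
    (b c : Perm (Fin N) → ℝ) (hb : ∀ σ, ¬ Sn n σ → b σ = 0) (hc : ∀ σ, Sn n σ → c σ = 0) :
    0 ≤ b ⬝ᵥ (G N M al n).mulVec b + 2 * (b ⬝ᵥ (G N M f (n + 1)).mulVec c) +
      c ⬝ᵥ (G N M g (n + 1)).mulVec c := by
  classical
  have hnN : n < N := by omega
  have hgd := good (N := N) hM n hnN.le
  set p : Finset ℕ → Perm (Fin N) → ℝ := fun C => (P N M n C).mulVec b with hp
  set z : Finset ℕ → Perm (Fin N) → ℝ := fun B => (P N M (n + 1) B).mulVec c with hz
  set y : Finset ℕ → Perm (Fin N) → ℝ := fun B =>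
    ∑ C ∈ Lv M n, (f B - ph C) • (P N M (n + 1) B).mulVec (p C) with hy
  -- the first term
  have t1 : b ⬝ᵥ (G N M al n).mulVec b = ∑ C ∈ Lv M n, al C * (p C ⬝ᵥ p C) :=
    quad_G' hM hnN.le al b b
  have t3 : c ⬝ᵥ (G N M g (n + 1)).mulVec c = ∑ B ∈ Lv M (n + 1), g B * (z B ⬝ᵥ z B) :=
    quad_G' hM (by omega) g c c
  have hsum : ∑ C ∈ Lv M n, p C = b := sum_P_mulVec hM hnN.le b
  have hPb : ∀ B, (P N M (n + 1) B).mulVec b = ∑ C ∈ Lv M n, (P N M (n + 1) B).mulVec (p C) := by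
    intro B
    rw [← Matrix.mulVec_sum, hsum]
  -- the free term
  have h0 : ∑ B ∈ Lv M (n + 1), ∑ C ∈ Lv M n, ph C * ((P N M (n + 1) B).mulVec (p C) ⬝ᵥ z B) = 0 := by
    rw [Finset.sum_comm]
    have e1 : ∀ C ∈ Lv M n, ∑ B ∈ Lv M (n + 1), ph C * ((P N M (n + 1) B).mulVec (p C) ⬝ᵥ z B) =
        ph C * (p C ⬝ᵥ (P N M n C).mulVec c) := by
      intro C _
      rw [← Finset.mul_sum]
      congr 1
      have e2 : ∀ B ∈ Lv M (n + 1), (P N M (n + 1) B).mulVec (p C) ⬝ᵥ z B =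
          p C ⬝ᵥ (P N M (n + 1) B).mulVec c := fun B _ => (quad_P' hM (by omega) B (p C) c).symm
      rw [Finset.sum_congr rfl e2, ← dotProduct_sum, sum_P_mulVec hM (by omega)]
      rw [hp]
      simp only
      rw [← quad_P' hM hnN.le, Matrix.dotProduct_mulVec, ← Matrix.mulVec_transpose, hgd.symm]
    rw [Finset.sum_congr rfl e1]
    refine Finset.sum_eq_zero fun C _ => ?_
    rw [hp]
    simp only
    rw [← quad_P' hM hnN.le, dot_Bd b c hb hc (hgd.al C).1, mul_zero]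
  have t2 : b ⬝ᵥ (G N M f (n + 1)).mulVec c = ∑ B ∈ Lv M (n + 1), y B ⬝ᵥ z B := by
    have e1 : b ⬝ᵥ (G N M f (n + 1)).mulVec c =
        ∑ B ∈ Lv M (n + 1), f B * ((P N M (n + 1) B).mulVec b ⬝ᵥ z B) :=
      quad_G' hM (by omega) f b c
    rw [e1, ← sub_zero (∑ B ∈ Lv M (n + 1), f B * _), ← h0, ← Finset.sum_sub_distrib]
    refine Finset.sum_congr rfl fun B _ => ?_
    rw [hy, hPb B]
    simp only
    rw [sum_dotProduct, sum_dotProduct, Finset.mul_sum, ← Finset.sum_sub_distrib]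
    refine Finset.sum_congr rfl fun C _ => ?_
    rw [smul_dotProduct, smul_eq_mul]
    ring
  -- the norms of `y`
  have hyy : ∀ B, y B ⬝ᵥ y B = ∑ C ∈ Lv M n, (f B - ph C) ^ 2 *
      ((∑ x ∈ ad C, if mv C x = B then w C x else 0) * (p C ⬝ᵥ p C)) := by
    intro B
    rw [hy]
    simp only
    rw [sum_dotProduct]
    refine Finset.sum_congr rfl fun C hC => ?_
    rw [smul_dotProduct, dotProduct_sum, Finset.sum_eq_single C]
    · rw [dotProduct_smul, hp]
      simp only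
      rw [gram hM hnN b hb hC B, if_pos rfl, smul_eq_mul, smul_eq_mul]
      ring
    · intro C' _ hne
      rw [dotProduct_smul, hp]
      simp only
      rw [gram hM hnN b hb hC B, if_neg (Ne.symm hne), smul_zero]
    · intro h'
      exact absurd hC h'
  have hpp : ∀ C, 0 ≤ p C ⬝ᵥ p C := fun C => Finset.sum_nonneg fun i _ => mul_self_nonneg _
  have hmain : ∑ B ∈ Lv M (n + 1), (y B ⬝ᵥ y B) / g B ≤ ∑ C ∈ Lv M n, al C * (p C ⬝ᵥ p C) := by
    have e1 : ∀ B ∈ Lv M (n + 1), (y B ⬝ᵥ y B) / g B = ∑ C ∈ Lv M n, ∑ x ∈ ad C,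
        if mv C x = B then w C x * ((f B - ph C) ^ 2 / g B) * (p C ⬝ᵥ p C) else 0 := by
      intro B _
      rw [hyy B, Finset.sum_div]
      refine Finset.sum_congr rfl fun C _ => ?_
      rw [Finset.sum_mul, Finset.mul_sum, Finset.sum_div]
      refine Finset.sum_congr rfl fun x _ => ?_
      split_ifs
      · ring
      · rw [zero_mul, mul_zero, zero_div]
    rw [Finset.sum_congr rfl e1, Finset.sum_comm]
    refine Finset.sum_le_sum fun C hC => ?_
    rw [Finset.sum_comm]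
    have e2 : ∀ x ∈ ad C, (∑ B ∈ Lv M (n + 1),
        if mv C x = B then w C x * ((f B - ph C) ^ 2 / g B) * (p C ⬝ᵥ p C) else 0) =
        w C x * ((f (mv C x) - ph C) ^ 2 / g (mv C x)) * (p C ⬝ᵥ p C) := by
      intro x hx
      rw [Finset.sum_ite_eq, if_pos (mv_mem hC hx)]
    rw [Finset.sum_congr rfl e2, ← Finset.sum_mul]
    exact mul_le_mul_of_nonneg_right (hal C hC) (hpp C)
  rw [t1, t2, t3]
  have hfin : 0 ≤ ∑ B ∈ Lv M (n + 1), ((y B ⬝ᵥ y B) / g B + 2 * (y B ⬝ᵥ z B) + g B * (z B ⬝ᵥ z B)) := by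
    refine Finset.sum_nonneg fun B hB => ?_
    have hgB := hg B hB
    have e1 : (y B ⬝ᵥ y B) / g B + 2 * (y B ⬝ᵥ z B) + g B * (z B ⬝ᵥ z B) =
        g B * ∑ σ, (z B σ + y B σ / g B) ^ 2 := by
      simp only [dotProduct]
      rw [Finset.sum_div, Finset.mul_sum, Finset.mul_sum, Finset.mul_sum,
        ← Finset.sum_add_distrib, ← Finset.sum_add_distrib]
      refine Finset.sum_congr rfl fun σ _ => ?_
      field_simp
      ring
    rw [e1]
    exact mul_nonneg hgB.le (Finset.sum_nonneg fun σ _ => sq_nonneg _)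
  rw [Finset.sum_add_distrib, Finset.sum_add_distrib, ← Finset.mul_sum] at hfin
  linarith

end Pool.JM
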